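import Pool.Agent.K6.H19.E6.Al

set_option autoImplicit false

/-!
# The nef cone conjecture for quotients of blow-ups of complex tori by groups with scalars of order three

Let `T = ℂ^n / Λ` be any complex torus of dimension `n ≥ 2`, let `G` be any finite group of
automorphisms of `T` which fix `0`, and let `X = Bl_0(T) / G`. Let `m` be the number of scalars in `G`,
let `P` be the image of the exceptional divisor, let `D_i` be the images of the divisors in `T` which are
fixed pointwise by some element of `G` other than `1`, and let `e_i` be the order of the (cyclic) group of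
the elements of `G` which fix such a divisor pointwise. Then `K_X + Δ`, where
`Δ = (1 - n / m) P + ∑ (1 - 1 / e_i) D_i`, is numerically trivial, and `(X, Δ)` is a klt Calabi-Yau pair
if and only if `n ≤ m`. The scalars which preserve a lattice have order `1`, `2`, `3`, `4` or `6`; so `G`
contains the scalars of order three if and only if `m` is `3` or `6`. The theorem says that part (a) of
the conjecture holds for all these klt Calabi-Yau pairs `(Bl_0(T) / G, Δ)`, in every dimension `n ≥ 2`,
for which `G` contains the scalars of order three (the dimension is then at most `6`). These are all klt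
Calabi-Yau pairs of this form of dimension five and of dimension six. If `n = 6` then `m = 6` and the
coefficient of `P` in `Δ` is `0`: if no divisor of `T` is fixed by an element of `G` other than `1` then
`K_X` is numerically trivial. The theorem also says that the nef cone is given by the elliptic curves
through `0` and the lines in `P`.

The proof. As `ℤ[ω]` is euclidean, `Λ` is isomorphic to `ℤ[ω]^n`. The sections needed are products of
theta functions which are pulled back along integral linear functions `l_k`; one has to write multiples of
a hermitian form `H` as sums of hermitian squares `|l_k|²`, with at least `b` of the `l_k` outside a given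
proper sublattice. By duality this follows from the inequality `min H ≤ tr (M H)` for hermitian forms over
`ℤ[ω]`, `H` positive definite and `M` positive semidefinite with values at least `1` outside a proper
sublattice. For `n ≤ 4` this inequality follows from Hermite's reduction theory for `M` and for `H`
(`Pool.Agent.Results.MP_ad47bb_ag.EquivariantKummer`), for `n = 5` one needs in addition a better bound
for three consecutive coefficients of a reduced form (`Pool.Agent.K6.H19.E5`). For `n = 6`
(`Pool.Agent.K6.H56.E6`) it is deduced from three facts: Blichfeldt's bound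
`det H ≥ (π / √3)^n (min H)^n / (n + 1)!`; the existence of a basis such that the coefficients
`m_1, ..., m_n` of `M` are minima over all vectors of the quotient lattices; and a covering bound in rank
two, sharp for the lattice `D_4`: if `|e + x|² + μ ≥ 1` for all `e` in `ℤ[ω]` then for all `y`, `z` there
are `e`, `f` in `ℤ[ω]` with `|e + f x + y|² + μ |f + z|² ≤ 1 / 6 + μ / 2`.

`IsLatt` is defined in `Pool.Agent.K6.H19.TR.Lt`, `HasScalar` in `Pool.Agent.K6.H19.TR.Al`; `Pres`,
`semi`, `NS`, `form`, `coef`, `nefCone`, `IsAutGroup` and `HasDomain` in `Pool.Agent.T6.H34.EK.Defs`;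
`LinGrp` in `Pool.Agent.Y167.Stm`.
-/

namespace Pool.Agent.Results.MP_ad47bb_ag.ScalarsOfOrderThree

open Pool.Agent.T6.H34.EK (Pres semi NS form coef nefCone IsAutGroup HasDomain)
open Pool.Agent.K6.H19.TR (IsLatt HasScalar)
open Pool.Agent.Y167.CC (LinGrp)

/-- Let `2 ≤ n ≤ 6`, let `Λ` be a lattice in `ℂ^n`, let `G` be a finite group of linear automorphisms of
`ℂ^n` which preserves `Λ` and contains the scalar `ζ`, where `ζ` is a primitive third root of unity, and
let `X = Bl_0(ℂ^n / Λ) / G`. A class in `N^1(X)` is a pair `(H, b)` where `H` is a hermitian form on `ℂ^n`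
and `b` is the coefficient of the exceptional divisor `-Ẽ` of `Bl_0(ℂ^n / Λ)`. The nef cone of `X` is the
cone of all `(H, b)` in `N^1(X)` such that `b ≥ 0` and `b` is at most the degree of `H` on the elliptic
curves through `0`: if `v ≠ 0` and `z v` are in `Λ` and `z` is not real, then
`b ≤ |Im z| H(v, v) = |Im H(z v, v)|`. There is a finite set `S` of integral classes such that the cone
`Π` spanned by `S` consists of nef effective classes and is a fundamental domain for the action of `𝒢` on
the cone `Nef^e(X)` of nef effective classes. -/
theorem result {n : ℕ} (hn : 2 ≤ n ∧ n ≤ 6) (Λ : AddSubgroup (Fin n → ℂ)) (hΛ : IsLatt Λ)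
    (G : Subgroup ((Fin n → ℂ) ≃ₗ[ℂ] (Fin n → ℂ))) (hfin : Finite G) (hG : Pres Λ G)
    (ζ : ℂ) (hζ : HasScalar G ζ) (hζ3 : ζ ^ 3 = 1) (hζ1 : ζ ≠ 1) :
    (∀ x : NS (semi Λ G hG), x ∈ nefCone (semi Λ G hG) ↔ 0 ≤ coef x ∧
      ∀ v ∈ Λ, ∀ z : ℂ, z • v ∈ Λ → v ≠ 0 → z.im ≠ 0 → coef x ≤ |z.im| * (form x v v).re) ∧
    ∀ 𝒢 : LinGrp (NS (semi Λ G hG)), IsAutGroup 𝒢 → HasDomain 𝒢 :=
  Pool.Agent.K6.H19.E6.concl_cube hn hΛ hG hζ hζ3 hζ1

end Pool.Agent.Results.MP_ad47bb_ag.ScalarsOfOrderThree
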